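import Pool.Agent.W8.ST.Stm

set_option autoImplicit false

/-! # ST-OpJ -/

open scoped ContDiff

namespace Pool.Agent.W904.STJ

open Pool.Agent.W8.ST

noncomputable section

def Jl : V 4 →ₗ[ℝ] V 4 where
  toFun := jj
  map_add' := by
    intro x y
    funext i
    fin_cases i <;> simp [jj] <;> ring
  map_smul' := by
    intro c x
    funext i
    fin_cases i <;> simp [jj]

def J : V 4 →L[ℝ] V 4 := LinearMap.toContinuousLinearMap Jl

theorem J_apply (x : V 4) : J x = jj x := rfl

theorem pd_comp (u : V 4 → ℝ) (hu : Differentiable ℝ u) (i : Fin 4) (x : V 4) :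
    pd i (u ∘ jj) x = fderiv ℝ u (jj x) (jj (Pi.single i 1)) := by
  unfold pd
  have h : (u ∘ jj) = u ∘ (J : V 4 → V 4) := rfl
  rw [h, fderiv_comp x (hu _) J.differentiableAt, J.fderiv]
  rfl

theorem jj0 : jj (Pi.single 0 1) = -(Pi.single 0 1 : V 4) := by
  funext i
  fin_cases i <;> simp [jj, Pi.single_apply]

theorem jj1 : jj (Pi.single 1 1) = (Pi.single 2 1 : V 4) := by
  funext i
  fin_cases i <;> simp [jj, Pi.single_apply]

theorem jj2 : jj (Pi.single 2 1) = (Pi.single 1 1 : V 4) := by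
  funext i
  fin_cases i <;> simp [jj, Pi.single_apply]

theorem jj3 : jj (Pi.single 3 1) = (Pi.single 3 1 : V 4) := by
  funext i
  fin_cases i <;> simp [jj, Pi.single_apply]

theorem pdc0 (u : V 4 → ℝ) (hu : Differentiable ℝ u) : pd 0 (u ∘ jj) = -(pd 0 u ∘ jj) := by
  funext x
  rw [pd_comp u hu, jj0, map_neg]
  rfl

theorem pdc1 (u : V 4 → ℝ) (hu : Differentiable ℝ u) : pd 1 (u ∘ jj) = pd 2 u ∘ jj := by
  funext x
  rw [pd_comp u hu, jj1]
  rfl

theorem pdc2 (u : V 4 → ℝ) (hu : Differentiable ℝ u) : pd 2 (u ∘ jj) = pd 1 u ∘ jj := by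
  funext x
  rw [pd_comp u hu, jj2]
  rfl

theorem pdc3 (u : V 4 → ℝ) (hu : Differentiable ℝ u) : pd 3 (u ∘ jj) = pd 3 u ∘ jj := by
  funext x
  rw [pd_comp u hu, jj3]
  rfl

theorem pd_smooth (u : V 4 → ℝ) (hu : ContDiff ℝ ∞ u) (i : Fin 4) : ContDiff ℝ ∞ (pd i u) := by
  have h : ContDiff ℝ ∞ (fderiv ℝ u) := (contDiff_infty_iff_fderiv.1 hu).2
  exact h.clm_apply contDiff_const

theorem diff_of (u : V 4 → ℝ) (hu : ContDiff ℝ ∞ u) : Differentiable ℝ u :=
  hu.differentiable (by simp)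

theorem jj_smooth : ContDiff ℝ ∞ jj := J.contDiff

theorem pd_zero (f : V 4 → ℝ) (hf : Differentiable ℝ f) (i : Fin 4) (hi : i ≠ 0)
    (h0 : ∀ x ∈ strip 3, f x = 0) : ∀ x ∈ strip 3, pd i f x = 0 := by
  intro x hx
  unfold pd
  rw [← (hf x).lineDeriv_eq_fderiv]
  unfold lineDeriv
  have : (fun t : ℝ => f (x + t • (Pi.single i 1 : V 4))) = fun _ => 0 := by
    funext t
    apply h0
    have h1 : (x + t • (Pi.single i 1 : V 4)) 0 = x 0 := by
      simp [Pi.single_apply, hi.symm]
    show |(x + t • (Pi.single i 1 : V 4)) 0| ≤ 1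
    rw [h1]
    exact hx
  rw [this]
  simp

theorem q_neg (t : ℝ) : q (-t) = (q t)⁻¹ := by
  unfold q
  rw [← Real.exp_neg]
  congr 1
  ring

theorem neg_comp (f : V 4 → ℝ) : (-(f ∘ jj)) = (-f) ∘ jj := rfl

theorem pd_neg (f : V 4 → ℝ) (i : Fin 4) : pd i (-f) = -pd i f := by
  funext x
  unfold pd
  rw [fderiv_neg]
  rfl

theorem jj_strip (x : V 4) (hx : x ∈ strip 3) : jj x ∈ strip 3 := by
  show |jj x 0| ≤ 1
  have : jj x 0 = -x 0 := rfl
  rw [this, abs_neg]
  exact hx

theorem OpJ_proof : OpJ := by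
  constructor
  · intro sig u hu hcase
    obtain ⟨hs, hper, hpde, hbd⟩ := hu
    have hd := diff_of u hs
    have hd0 := diff_of _ (pd_smooth u hs 0)
    have hd1 := diff_of _ (pd_smooth u hs 1)
    have hd2 := diff_of _ (pd_smooth u hs 2)
    have hd3 := diff_of _ (pd_smooth u hs 3)
    have c0 : pd 0 (pd 0 (u ∘ jj)) = pd 0 (pd 0 u) ∘ jj := by
      rw [pdc0 u hd, pd_neg, pdc0 _ hd0, neg_neg]
    have c1 : pd 1 (pd 1 (u ∘ jj)) = pd 2 (pd 2 u) ∘ jj := by
      rw [pdc1 u hd, pdc1 _ hd2]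
    have c2 : pd 2 (pd 2 (u ∘ jj)) = pd 1 (pd 1 u) ∘ jj := by
      rw [pdc2 u hd, pdc2 _ hd1]
    have c3 : pd 3 (pd 3 (u ∘ jj)) = pd 3 (pd 3 u) ∘ jj := by
      rw [pdc3 u hd, pdc3 _ hd3]
    refine ⟨hs.comp jj_smooth, ?_, ?_, ?_⟩
    · intro x hx i
      show u (jj (x + Pi.single i.succ (2 * Real.pi))) = u (jj x)
      fin_cases i
      · have : jj (x + Pi.single (Fin.succ (0 : Fin 3)) (2 * Real.pi)) =
            jj x + Pi.single (Fin.succ (1 : Fin 3)) (2 * Real.pi) := by
          funext j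
          fin_cases j <;> simp [jj, Pi.single_apply]
        exact (congrArg u this).trans (hper _ (jj_strip x hx) 1)
      · have : jj (x + Pi.single (Fin.succ (1 : Fin 3)) (2 * Real.pi)) =
            jj x + Pi.single (Fin.succ (0 : Fin 3)) (2 * Real.pi) := by
          funext j
          fin_cases j <;> simp [jj, Pi.single_apply]
        exact (congrArg u this).trans (hper _ (jj_strip x hx) 0)
      · have : jj (x + Pi.single (Fin.succ (2 : Fin 3)) (2 * Real.pi)) =
            jj x + Pi.single (Fin.succ (2 : Fin 3)) (2 * Real.pi) := by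
          funext j
          fin_cases j <;> simp [jj, Pi.single_apply]
        exact (congrArg u this).trans (hper _ (jj_strip x hx) 2)
    · intro x hx
      have hy := jj_strip x hx
      have h := hpde _ hy
      rw [c0, c1, c2, c3]
      simp only [Function.comp_apply]
      have hy0 : jj x 0 = -x 0 := rfl
      rw [hy0, q_neg] at h
      rcases hcase with hc | hc
      · have e1 := pd_zero _ hd1 1 (by decide) (fun x hx => (hc x hx).1) _ hy
        have e3 := pd_zero _ hd3 3 (by decide) (fun x hx => (hc x hx).2) _ hy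
        rw [e1, e3] at h ⊢
        linarith
      · have e2 := pd_zero _ hd2 2 (by decide) (fun x hx => (hc x hx).1) _ hy
        have e3 := pd_zero _ hd3 3 (by decide) (fun x hx => (hc x hx).2) _ hy
        rw [e2, e3] at h ⊢
        rw [inv_inv] at h
        linarith
    · intro x hx
      have hy0 : jj x 0 = -x 0 := rfl
      have hb := hbd (jj x) (by rw [hy0, abs_neg]; exact hx)
      rw [hy0] at hb
      rw [pdc0 u hd]
      simp only [Pi.neg_apply, Function.comp_apply]
      linarith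
  · intro u hu
    have hd := diff_of u hu
    exact ⟨pdc1 u hd, pdc2 u hd, pdc3 u hd⟩

end

end Pool.Agent.W904.STJ
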